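import Pool.Agent.Lib.MP_6ff8d9_an_h19.BaireOf

/-!
# Power series of bounded separately holomorphic functions on polydiscs; T0.1 and T0.5
-/

open Metric Filter Topology

namespace Pool.Agent.Lib.MP_6ff8d9_an

namespace H21

noncomputable section

/-! ### one variable -/

/-- Taylor coefficients with Cauchy bounds -/
lemma one_var {f : ℂ → ℂ} {r M : ℝ} (hr : 0 < r) (hf : DifferentiableOn ℂ f (ball 0 r))
    (hM : ∀ z ∈ ball (0 : ℂ) r, ‖f z‖ ≤ M) :
    ∃ c : ℕ → ℂ, (∀ k, ‖c k‖ * r ^ k ≤ M) ∧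
      ∀ z ∈ ball (0 : ℂ) r, HasSum (fun k => c k * z ^ k) (f z) := by
  refine ⟨fun k => (k.factorial : ℂ)⁻¹ * iteratedDeriv k f 0, fun k => ?_, fun z hz => ?_⟩
  · have h1 : ∀ ρ : ℝ, 0 < ρ → ρ < r →
        ‖(k.factorial : ℂ)⁻¹ * iteratedDeriv k f 0‖ * ρ ^ k ≤ M := by
      intro ρ h0 h1
      have hsub : closedBall (0 : ℂ) ρ ⊆ ball 0 r := closedBall_subset_ball h1
      have hd : DiffContOnCl ℂ f (ball 0 ρ) := by
        refine DifferentiableOn.diffContOnCl ?_
        exact hf.mono ((closure_ball_subset_closedBall).trans hsub)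
      have h2 := Complex.norm_iteratedDeriv_le_of_forall_mem_sphere_norm_le k h0 hd
        (fun z hz => hM z (hsub (sphere_subset_closedBall hz)))
      have hk : (0 : ℝ) < k.factorial := by exact_mod_cast k.factorial_pos
      rw [norm_mul, norm_inv, Complex.norm_natCast]
      have h3 : ‖iteratedDeriv k f 0‖ * ρ ^ k ≤ k.factorial * M := by
        rwa [le_div_iff₀ (pow_pos h0 k)] at h2
      calc (k.factorial : ℝ)⁻¹ * ‖iteratedDeriv k f 0‖ * ρ ^ k
          = (k.factorial : ℝ)⁻¹ * (‖iteratedDeriv k f 0‖ * ρ ^ k) := by ring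
        _ ≤ (k.factorial : ℝ)⁻¹ * (k.factorial * M) :=
          mul_le_mul_of_nonneg_left h3 (by positivity)
        _ = M := by field_simp
    have h2 : Tendsto (fun ρ : ℝ => ‖(k.factorial : ℂ)⁻¹ * iteratedDeriv k f 0‖ * ρ ^ k)
        (𝓝[<] r) (𝓝 (‖(k.factorial : ℂ)⁻¹ * iteratedDeriv k f 0‖ * r ^ k)) := by
      have hc : Continuous fun ρ : ℝ =>
          ‖(k.factorial : ℂ)⁻¹ * iteratedDeriv k f 0‖ * ρ ^ k := by fun_prop
      exact (hc.tendsto r).mono_left nhdsWithin_le_nhds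
    refine le_of_tendsto h2 ?_
    filter_upwards [Ioo_mem_nhdsLT hr] with ρ hρ
    exact h1 ρ hρ.1 hρ.2
  · have h := Complex.hasSum_taylorSeries_on_ball hf hz
    have e : (fun k : ℕ => (k.factorial : ℂ)⁻¹ * iteratedDeriv k f 0 * z ^ k) =
        fun k : ℕ => (k.factorial : ℂ)⁻¹ • (z - 0) ^ k • iteratedDeriv k f 0 := by
      funext k
      rw [smul_eq_mul, smul_eq_mul, sub_zero]
      ring
    rw [e]
    exact h

/-- the remainder -/
lemma tail_est {c : ℕ → ℂ} {r M q : ℝ} (hr : 0 < r) (hc : ∀ k, ‖c k‖ * r ^ k ≤ M) (hq : 0 < q)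
    (hq2 : q ≤ 1 / 2) {A : ℂ} (h : HasSum (fun k => c k * ((q * r : ℝ) : ℂ) ^ k) A) (k : ℕ) :
    ‖(A - ∑ i ∈ Finset.range k, c i * ((q * r : ℝ) : ℂ) ^ i) / ((q * r : ℝ) : ℂ) ^ k - c k‖ ≤
      2 * M / r ^ k * q := by
  set z : ℂ := ((q * r : ℝ) : ℂ) with hz
  have hqr : 0 < q * r := mul_pos hq hr
  have hz0 : z ≠ 0 := by
    rw [hz]
    exact_mod_cast hqr.ne'
  have hzn : ‖z‖ = q * r := by
    rw [hz, Complex.norm_real, Real.norm_eq_abs, abs_of_pos hqr]
  have h1 : HasSum (fun m => c (m + (k + 1)) * z ^ (m + (k + 1)))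
      (A - ∑ i ∈ Finset.range (k + 1), c i * z ^ i) :=
    (hasSum_nat_add_iff' (k + 1)).mpr h
  have hM : 0 ≤ M := by
    have := hc 0
    exact (by positivity : (0 : ℝ) ≤ ‖c 0‖ * r ^ 0).trans this
  have hg : HasSum (fun m : ℕ => M * q ^ (k + 1) * q ^ m) (M * q ^ (k + 1) * (1 - q)⁻¹) :=
    (hasSum_geometric_of_lt_one hq.le (by linarith)).mul_left _
  have h2 : ‖A - ∑ i ∈ Finset.range (k + 1), c i * z ^ i‖ ≤ M * q ^ (k + 1) * (1 - q)⁻¹ := by
    refine h1.norm_le_of_bounded hg fun m => ?_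
    rw [norm_mul, norm_pow, hzn, mul_pow]
    calc ‖c (m + (k + 1))‖ * (q ^ (m + (k + 1)) * r ^ (m + (k + 1)))
        = (‖c (m + (k + 1))‖ * r ^ (m + (k + 1))) * q ^ (m + (k + 1)) := by ring
      _ ≤ M * q ^ (m + (k + 1)) := mul_le_mul_of_nonneg_right (hc _) (by positivity)
      _ = M * q ^ (k + 1) * q ^ m := by ring
  have h3 : (A - ∑ i ∈ Finset.range k, c i * z ^ i) / z ^ k - c k =
      (A - ∑ i ∈ Finset.range (k + 1), c i * z ^ i) / z ^ k := by
    rw [Finset.sum_range_succ]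
    field_simp
    ring
  rw [h3, norm_div, norm_pow, hzn]
  have h4 : (1 - q)⁻¹ ≤ 2 := by
    rw [inv_le_comm₀ (by linarith) (by norm_num)]
    linarith
  calc ‖A - ∑ i ∈ Finset.range (k + 1), c i * z ^ i‖ / (q * r) ^ k
      ≤ (M * q ^ (k + 1) * 2) / (q * r) ^ k := by
        refine div_le_div_of_nonneg_right (h2.trans ?_) (by positivity)
        exact mul_le_mul_of_nonneg_left h4 (by positivity)
    _ = 2 * M / r ^ k * q := by
        rw [mul_pow]
        field_simp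
        ring

lemma qN (N : ℕ) : (0 : ℝ) < 1 / ((N : ℝ) + 2) ∧ 1 / ((N : ℝ) + 2) ≤ 1 / 2 := by
  refine ⟨by positivity, ?_⟩
  exact one_div_le_one_div_of_le (by norm_num) (by have : (0 : ℝ) ≤ N := N.cast_nonneg; linarith)

lemma qN_tendsto : Tendsto (fun N : ℕ => 1 / ((N : ℝ) + 2)) atTop (𝓝 0) := by
  have t3 := (tendsto_add_atTop_iff_nat 1).mpr (tendsto_one_div_add_atTop_nhds_zero_nat (𝕜 := ℝ))
  refine t3.congr fun k => ?_
  push_cast
  ring_nf

lemma zN_mem {r : ℝ} (hr : 0 < r) (N : ℕ) : ((1 / ((N : ℝ) + 2) * r : ℝ) : ℂ) ∈ ball (0 : ℂ) r := by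
  obtain ⟨h1, h2⟩ := qN N
  rw [mem_ball_zero_iff, Complex.norm_real, Real.norm_eq_abs, abs_of_pos (mul_pos h1 hr)]
  nlinarith

/-- uniqueness in one variable -/
lemma one_unique {c : ℕ → ℂ} {r : ℝ} (hr : 0 < r)
    (h : ∀ z ∈ ball (0 : ℂ) r, HasSum (fun k => c k * z ^ k) 0) (k : ℕ) : c k = 0 := by
  -- a bound on a smaller disc
  have hr2 : 0 < r / 2 := by positivity
  obtain ⟨M, hM⟩ : ∃ M, ∀ k, ‖c k‖ * (r / 2) ^ k ≤ M := by
    have h1 := (h ((r / 2 : ℝ) : ℂ) (by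
      rw [mem_ball_zero_iff, Complex.norm_real, Real.norm_eq_abs, abs_of_pos hr2]
      linarith)).summable.tendsto_atTop_zero
    obtain ⟨M, hM⟩ := h1.norm.bddAbove_range
    refine ⟨M, fun k => ?_⟩
    have : ‖c k * ((r / 2 : ℝ) : ℂ) ^ k‖ ≤ M := hM ⟨k, rfl⟩
    rwa [norm_mul, norm_pow, Complex.norm_real, Real.norm_eq_abs, abs_of_pos hr2] at this
  induction k using Nat.strong_induction_on with
  | _ k ih =>
    have h1 : ∀ N : ℕ, ‖c k‖ ≤ 2 * M / (r / 2) ^ k * (1 / ((N : ℝ) + 2)) := by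
      intro N
      obtain ⟨q1, q2⟩ := qN N
      have hz : ((1 / ((N : ℝ) + 2) * (r / 2) : ℝ) : ℂ) ∈ ball (0 : ℂ) r :=
        ball_subset_ball (by linarith) (zN_mem hr2 N)
      have h2 := tail_est hr2 hM q1 q2 (h _ hz) k
      have h3 : ∑ i ∈ Finset.range k, c i * ((1 / ((N : ℝ) + 2) * (r / 2) : ℝ) : ℂ) ^ i = 0 := by
        refine Finset.sum_eq_zero fun i hi => ?_
        rw [ih i (Finset.mem_range.mp hi), zero_mul]
      rwa [h3, sub_zero, zero_div, zero_sub, norm_neg] at h2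
    have h2 : Tendsto (fun N : ℕ => 2 * M / (r / 2) ^ k * (1 / ((N : ℝ) + 2))) atTop
        (𝓝 (2 * M / (r / 2) ^ k * 0)) := qN_tendsto.const_mul _
    rw [mul_zero] at h2
    have h3 : ‖c k‖ ≤ 0 := ge_of_tendsto' h2 h1
    exact norm_le_zero_iff.mp h3

/-- holomorphic dependence of the coefficients on a parameter -/
lemma coeff_diff {c : ℕ → ℂ → ℂ} {G : ℂ → ℂ → ℂ} {U : Set ℂ} (hU : IsOpen U) {r M : ℝ}
    (hr : 0 < r) (hs : ∀ t ∈ U, ∀ z ∈ ball (0 : ℂ) r, HasSum (fun k => c k t * z ^ k) (G z t))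
    (hb : ∀ t ∈ U, ∀ k, ‖c k t‖ * r ^ k ≤ M)
    (hG : ∀ z ∈ ball (0 : ℂ) r, DifferentiableOn ℂ (G z) U) (k : ℕ) :
    DifferentiableOn ℂ (c k) U := by
  induction k using Nat.strong_induction_on with
  | _ k ih =>
    let z : ℕ → ℂ := fun N => ((1 / ((N : ℝ) + 2) * r : ℝ) : ℂ)
    have hz : ∀ N, z N ∈ ball (0 : ℂ) r := zN_mem hr
    let F : ℕ → ℂ → ℂ := fun N t => (G (z N) t - ∑ i ∈ Finset.range k, c i t * z N ^ i) / z N ^ k
    have hF : ∀ N, DifferentiableOn ℂ (F N) U := by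
      intro N
      refine DifferentiableOn.div_const ((hG _ (hz N)).sub ?_) _
      refine DifferentiableOn.fun_sum fun i hi => ?_
      exact (ih i (Finset.mem_range.mp hi)).mul_const _
    have hlim : TendstoUniformlyOn F (c k) atTop U := by
      rw [Metric.tendstoUniformlyOn_iff]
      intro ε hε
      have h2 : Tendsto (fun N : ℕ => 2 * M / r ^ k * (1 / ((N : ℝ) + 2))) atTop
          (𝓝 (2 * M / r ^ k * 0)) := qN_tendsto.const_mul _
      rw [mul_zero] at h2
      filter_upwards [h2.eventually (gt_mem_nhds hε)] with N hN t ht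
      obtain ⟨q1, q2⟩ := qN N
      have h3 := tail_est hr (hb t ht) q1 q2 (hs t ht _ (hz N)) k
      rw [dist_comm, dist_eq_norm]
      exact lt_of_le_of_lt h3 hN
    exact hlim.tendstoLocallyUniformlyOn.differentiableOn (Eventually.of_forall hF) hU

/-! ### polydiscs -/

/-- open polydisc -/
def PD {n : ℕ} (s : Fin n → ℝ) : Set (Fin n → ℂ) := {y | ∀ j, ‖y j‖ < s j}

lemma mon_cons {n : ℕ} (k : ℕ) (γ : Fin n → ℕ) (y : Fin (n + 1) → ℂ) :
    mon (Fin.cons k γ : Fin (n + 1) → ℕ) y = y 0 ^ k * mon γ (Fin.tail y) := by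
  rw [mon, mon, Fin.prod_univ_succ]
  rfl

lemma cons_mem {n : ℕ} {s : Fin (n + 1) → ℝ} {z : ℂ} {y : Fin n → ℂ} (hz : z ∈ ball (0 : ℂ) (s 0))
    (hy : y ∈ PD (Fin.tail s)) : (Fin.cons z y : Fin (n + 1) → ℂ) ∈ PD s := by
  intro j
  refine Fin.cases ?_ (fun i => ?_) j
  · rw [Fin.cons_zero]
    exact mem_ball_zero_iff.mp hz
  · rw [Fin.cons_succ]
    exact hy i

/-- a bounded separately holomorphic function on a polydisc has a power series -/
theorem poly_series (n : ℕ) : ∀ (s : Fin n → ℝ), (∀ j, 0 < s j) → ∀ (F : (Fin n → ℂ) → ℂ) (M : ℝ),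
    (∀ y ∈ PD s, ∀ j, DifferentiableOn ℂ (fun t => F (Function.update y j t)) (ball 0 (s j))) →
    (∀ y ∈ PD s, ‖F y‖ ≤ M) →
    ∃ a : (Fin n → ℕ) → ℂ, (∀ γ, ‖a γ‖ * ∏ j, s j ^ γ j ≤ M) ∧
      ∀ y ∈ PD s, HasSum (fun γ => a γ * mon γ y) (F y) := by
  induction n with
  | zero =>
    intro s hs F M hF hM
    refine ⟨fun _ => F 0, fun γ => ?_, fun y hy => ?_⟩
    · rw [Finset.univ_eq_empty, Finset.prod_empty, mul_one]
      exact hM 0 (fun j => j.elim0)
    · have h1 : y = 0 := Subsingleton.elim _ _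
      have h2 := hasSum_unique (fun γ : Fin 0 → ℕ => F 0 * mon γ y)
      have h3 : ∀ γ : Fin 0 → ℕ, F 0 * mon γ y = F y := by
        intro γ
        rw [mon, Finset.univ_eq_empty, Finset.prod_empty, mul_one, h1]
      simp only [h3] at h2 ⊢
      exact h2
  | succ n ih =>
    intro s hs F M hF hM
    have step1 : ∀ y' : Fin n → ℂ, y' ∈ PD (Fin.tail s) → ∃ c : ℕ → ℂ,
        (∀ k, ‖c k‖ * s 0 ^ k ≤ M) ∧
        ∀ z ∈ ball (0 : ℂ) (s 0), HasSum (fun k => c k * z ^ k) (F (Fin.cons z y')) := by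
      intro y' hy'
      refine one_var (hs 0) ?_ fun z hz => hM _ (cons_mem hz hy')
      have h1 := hF (Fin.cons 0 y') (cons_mem (mem_ball_self (hs 0)) hy') 0
      simpa only [Fin.update_cons_zero] using h1
    choose! c hc1 hc2 using step1
    have step2 : ∀ k, ∃ a : (Fin n → ℕ) → ℂ,
        (∀ γ, ‖a γ‖ * ∏ j, Fin.tail s j ^ γ j ≤ M / s 0 ^ k) ∧
        ∀ y' ∈ PD (Fin.tail s), HasSum (fun γ => a γ * mon γ y') (c y' k) := by
      intro k
      refine ih (Fin.tail s) (fun j => hs j.succ) (fun y' => c y' k) (M / s 0 ^ k) ?_ ?_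
      · intro y' hy' j
        have hup : ∀ t ∈ ball (0 : ℂ) (Fin.tail s j), Function.update y' j t ∈ PD (Fin.tail s) := by
          intro t ht i
          rcases eq_or_ne i j with rfl | hij
          · rw [Function.update_self]
            exact mem_ball_zero_iff.mp ht
          · rw [Function.update_of_ne hij]
            exact hy' i
        refine coeff_diff (c := fun k t => c (Function.update y' j t) k)
          (G := fun z t => F (Fin.cons z (Function.update y' j t))) isOpen_ball (hs 0)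
          (fun t ht z hz => hc2 _ (hup t ht) z hz) (fun t ht k => hc1 _ (hup t ht) k)
          (fun z hz => ?_) k
        have h1 := hF (Fin.cons z y') (cons_mem hz hy') j.succ
        simp only [← Fin.cons_update] at h1
        exact h1
      · intro y' hy'
        rw [le_div_iff₀ (pow_pos (hs 0) k)]
        exact hc1 y' hy' k
    choose A hA1 hA2 using step2
    have hbound : ∀ γ : Fin (n + 1) → ℕ, ‖A (γ 0) (Fin.tail γ)‖ * ∏ j, s j ^ γ j ≤ M := by
      intro γ
      have h1 := hA1 (γ 0) (Fin.tail γ)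
      rw [le_div_iff₀ (pow_pos (hs 0) _)] at h1
      rw [Fin.prod_univ_succ]
      calc ‖A (γ 0) (Fin.tail γ)‖ * (s 0 ^ γ 0 * ∏ i : Fin n, s i.succ ^ γ i.succ)
          = ‖A (γ 0) (Fin.tail γ)‖ * (∏ i : Fin n, Fin.tail s i ^ Fin.tail γ i) * s 0 ^ γ 0 := by
            simp only [Fin.tail]
            ring
        _ ≤ M := h1
    refine ⟨fun γ => A (γ 0) (Fin.tail γ), hbound, fun y hy => ?_⟩
    -- absolute convergence
    obtain ⟨r, hr0, hr1, hry⟩ : ∃ r : ℝ, 0 ≤ r ∧ r < 1 ∧ ∀ j, ‖y j‖ ≤ r * s j := by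
      refine ⟨Finset.univ.sup' ⟨0, Finset.mem_univ _⟩ fun j => ‖y j‖ / s j, ?_, ?_, ?_⟩
      · exact (by positivity [hs 0] : (0 : ℝ) ≤ ‖y 0‖ / s 0).trans
          (Finset.le_sup' (fun j => ‖y j‖ / s j) (Finset.mem_univ 0))
      · rw [Finset.sup'_lt_iff]
        intro j _
        rw [div_lt_one (hs j)]
        exact hy j
      · intro j
        rw [← div_le_iff₀ (hs j)]
        exact Finset.le_sup' (fun j => ‖y j‖ / s j) (Finset.mem_univ j)
    have hsum : Summable fun γ : Fin (n + 1) → ℕ => A (γ 0) (Fin.tail γ) * mon γ y := by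
      refine Summable.of_norm_bounded ((H19.summable_geom (n + 1) hr0 hr1).mul_left M) fun γ => ?_
      rw [norm_mul, mon, norm_prod]
      have h1 : ∏ j, ‖y j ^ γ j‖ ≤ (∏ j, s j ^ γ j) * ∏ j, r ^ γ j := by
        rw [← Finset.prod_mul_distrib]
        refine Finset.prod_le_prod (fun j _ => norm_nonneg _) fun j _ => ?_
        rw [norm_pow, ← mul_pow, mul_comm]
        exact pow_le_pow_left₀ (norm_nonneg _) (hry j) _
      calc ‖A (γ 0) (Fin.tail γ)‖ * ∏ j, ‖y j ^ γ j‖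
          ≤ ‖A (γ 0) (Fin.tail γ)‖ * ((∏ j, s j ^ γ j) * ∏ j, r ^ γ j) :=
            mul_le_mul_of_nonneg_left h1 (norm_nonneg _)
        _ = (‖A (γ 0) (Fin.tail γ)‖ * ∏ j, s j ^ γ j) * ∏ j, r ^ γ j := by ring
        _ ≤ M * ∏ j, r ^ γ j :=
            mul_le_mul_of_nonneg_right (hbound γ) (Finset.prod_nonneg fun j _ => pow_nonneg hr0 _)
    -- the value
    have h1 := (Fin.consEquiv fun _ : Fin (n + 1) => ℕ).hasSum_iff.mpr hsum.hasSum
    have hy' : Fin.tail y ∈ PD (Fin.tail s) := fun j => hy j.succ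
    have h2 : ∀ k : ℕ, HasSum (fun γ' : Fin n → ℕ =>
        ((fun γ : Fin (n + 1) → ℕ => A (γ 0) (Fin.tail γ) * mon γ y) ∘
          (Fin.consEquiv fun _ : Fin (n + 1) => ℕ)) (k, γ')) (c (Fin.tail y) k * y 0 ^ k) := by
      intro k
      have e : (fun γ' : Fin n → ℕ => ((fun γ : Fin (n + 1) → ℕ => A (γ 0) (Fin.tail γ) * mon γ y) ∘
          (Fin.consEquiv fun _ : Fin (n + 1) => ℕ)) (k, γ')) =
          fun γ' => A k γ' * mon γ' (Fin.tail y) * y 0 ^ k := by
        funext γ'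
        change A k γ' * mon (Fin.cons k γ' : Fin (n + 1) → ℕ) y =
          A k γ' * mon γ' (Fin.tail y) * y 0 ^ k
        rw [mon_cons]
        ring
      rw [e]
      exact (hA2 k _ hy').mul_right (y 0 ^ k)
    have h3 := h1.prod_fiberwise h2
    have h4 := hc2 _ hy' (y 0) (mem_ball_zero_iff.mpr (hy 0))
    rw [Fin.cons_self_tail] at h4
    have h5 := h3.unique h4
    rw [← h5]
    exact hsum.hasSum

/-- uniqueness of power series on polydiscs -/
theorem poly_unique (n : ℕ) : ∀ (s : Fin n → ℝ), (∀ j, 0 < s j) → ∀ (a : (Fin n → ℕ) → ℂ),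
    (∀ y ∈ PD s, HasSum (fun γ => a γ * mon γ y) 0) → ∀ γ, a γ = 0 := by
  induction n with
  | zero =>
    intro s hs a h γ
    have h1 := h 0 (fun j => j.elim0)
    have h2 := hasSum_unique (fun γ : Fin 0 → ℕ => a γ * mon γ 0)
    have h3 := h1.unique h2
    rw [mon, Finset.univ_eq_empty, Finset.prod_empty, mul_one] at h3
    rw [h3]
    exact congrArg a (Subsingleton.elim _ _)
  | succ n ih =>
    intro s hs a h γ
    -- fibres are summable
    have hfib : ∀ y' ∈ PD (Fin.tail s), ∀ k : ℕ,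
        Summable fun γ' : Fin n → ℕ => a (Fin.cons k γ') * mon γ' y' := by
      intro y' hy' k
      have hz : ((s 0 / 2 : ℝ) : ℂ) ∈ ball (0 : ℂ) (s 0) := by
        have := hs 0
        rw [mem_ball_zero_iff, Complex.norm_real, Real.norm_eq_abs, abs_of_pos (by positivity)]
        linarith
      have hz0 : ((s 0 / 2 : ℝ) : ℂ) ≠ 0 := by
        have := hs 0
        exact_mod_cast (by positivity : (s 0 / 2 : ℝ) ≠ 0)
      have h1 := (Fin.consEquiv fun _ : Fin (n + 1) => ℕ).summable_iff.mpr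
        (h _ (cons_mem hz hy')).summable
      have h2 := h1.prod_factor k
      have e : (fun γ' : Fin n → ℕ => ((fun γ : Fin (n + 1) → ℕ =>
          a γ * mon γ (Fin.cons ((s 0 / 2 : ℝ) : ℂ) y')) ∘
          (Fin.consEquiv fun _ : Fin (n + 1) => ℕ)) (k, γ')) =
          fun γ' => a (Fin.cons k γ') * mon γ' y' * ((s 0 / 2 : ℝ) : ℂ) ^ k := by
        funext γ'
        change a (Fin.cons k γ') * mon (Fin.cons k γ' : Fin (n + 1) → ℕ)
          (Fin.cons ((s 0 / 2 : ℝ) : ℂ) y') = _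
        rw [mon_cons, Fin.cons_zero, Fin.tail_cons]
        ring
      rw [e] at h2
      have h3 := h2.mul_right ((((s 0 / 2 : ℝ) : ℂ) ^ k)⁻¹)
      refine h3.congr fun γ' => ?_
      rw [mul_assoc, mul_inv_cancel₀ (pow_ne_zero k hz0), mul_one]
    have hsum : ∀ y' ∈ PD (Fin.tail s), ∀ k : ℕ,
        ∑' γ' : Fin n → ℕ, a (Fin.cons k γ') * mon γ' y' = 0 := by
      intro y' hy'
      refine one_unique (hs 0) fun z hz => ?_
      have h1 := (Fin.consEquiv fun _ : Fin (n + 1) => ℕ).hasSum_iff.mpr (h _ (cons_mem hz hy'))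
      refine h1.prod_fiberwise fun k => ?_
      have e : (fun γ' : Fin n → ℕ => ((fun γ : Fin (n + 1) → ℕ =>
          a γ * mon γ (Fin.cons z y')) ∘
          (Fin.consEquiv fun _ : Fin (n + 1) => ℕ)) (k, γ')) =
          fun γ' => a (Fin.cons k γ') * mon γ' y' * z ^ k := by
        funext γ'
        change a (Fin.cons k γ') * mon (Fin.cons k γ' : Fin (n + 1) → ℕ) (Fin.cons z y') = _
        rw [mon_cons, Fin.cons_zero, Fin.tail_cons]
        ring
      rw [e]
      exact (hfib y' hy' k).hasSum.mul_right (z ^ k)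
    have h1 := ih (Fin.tail s) (fun j => hs j.succ) (fun γ' => a (Fin.cons (γ 0) γ'))
      (fun y' hy' => by
        rw [← hsum y' hy' (γ 0)]
        exact (hfib y' hy' (γ 0)).hasSum) (Fin.tail γ)
    rwa [Fin.cons_self_tail] at h1

lemma PD_mono {n : ℕ} {s t : Fin n → ℝ} (h : ∀ j, s j ≤ t j) : PD s ⊆ PD t :=
  fun _ hy j => (hy j).trans_le (h j)

lemma PD_subset_Dn {n : ℕ} {s : Fin n → ℝ} (h : ∑ j, s j ^ 2 < (n : ℝ)) : PD s ⊆ Dn n := by
  intro y hy
  refine lt_of_le_of_lt (Finset.sum_le_sum fun j _ => ?_) h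
  exact pow_le_pow_left₀ (norm_nonneg _) (hy j).le 2

lemma half_sum {n : ℕ} (hn : 1 ≤ n) : ∑ _j : Fin n, (1 / 2 : ℝ) ^ 2 < (n : ℝ) := by
  have : (0 : ℝ) < n := by exact_mod_cast hn
  rw [Finset.sum_const, Finset.card_univ, Fintype.card_fin, nsmul_eq_mul]
  linarith

lemma exists_radii {n : ℕ} (y : Fin n → ℂ) (hy : y ∈ Dn n) :
    ∃ s : Fin n → ℝ, (∀ j, 0 < s j) ∧ ∑ j, s j ^ 2 < (n : ℝ) ∧ y ∈ PD s := by
  have hc : Continuous fun d : ℝ => ∑ j, (‖y j‖ + d) ^ 2 := by fun_prop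
  have h1 : ∀ᶠ d in 𝓝 (0 : ℝ), ∑ j, (‖y j‖ + d) ^ 2 < (n : ℝ) := by
    have h2 := hc.tendsto 0
    simp only [add_zero] at h2
    exact h2.eventually (gt_mem_nhds hy)
  have h2 : ∀ᶠ d in 𝓝[>] (0 : ℝ), ∑ j, (‖y j‖ + d) ^ 2 < (n : ℝ) := h1.filter_mono nhdsWithin_le_nhds
  obtain ⟨d, hd, hd0⟩ := (h2.and self_mem_nhdsWithin).exists
  have hd0' : 0 < d := hd0
  exact ⟨fun j => ‖y j‖ + d, fun j => by positivity, hd, fun j => by linarith⟩

end

end H21

open H21

/-- T0.5 (uniqueness) -/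
theorem fn_inj {n : ℕ} (hn : 1 ≤ n) {a b : (Fin n → ℕ) → ℂ} (ha : ∀ y ∈ Dn n, Summable (fun γ => a γ * mon γ y))
    (hb : ∀ y ∈ Dn n, Summable (fun γ => b γ * mon γ y)) (h : ∀ y ∈ Dn n, fn a y = fn b y) :
    a = b := by
  have h1 := poly_unique n (fun _ => 1 / 2) (fun _ => by norm_num) (fun γ => a γ - b γ)
    (fun y hy => by
      have hy' := PD_subset_Dn (half_sum hn) hy
      have h2 := (ha y hy').hasSum.sub (hb y hy').hasSum
      have h3 : (∑' γ, a γ * mon γ y) - ∑' γ, b γ * mon γ y = 0 := sub_eq_zero.mpr (h y hy')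
      rw [h3] at h2
      simpa only [sub_mul] using h2)
  funext γ
  exact sub_eq_zero.mp (h1 γ)

namespace H21

noncomputable section

/-- the inverse of `sc` -/
def isc (n : ℕ) (y : Fin n → ℂ) : Cn n := WithLp.toLp 2 fun j => y j / (Real.sqrt n : ℂ)

lemma sc_isc {n : ℕ} (hn : 1 ≤ n) (y : Fin n → ℂ) : H19.sc n (isc n y) = y := by
  have h0 : (0 : ℝ) < n := by exact_mod_cast hn
  have hs : (0 : ℝ) < Real.sqrt n := Real.sqrt_pos.2 h0
  funext j
  change (Real.sqrt n : ℂ) * (y j / (Real.sqrt n : ℂ)) = y j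
  have : (Real.sqrt n : ℂ) ≠ 0 := by exact_mod_cast hs.ne'
  field_simp

lemma isc_sc {n : ℕ} (hn : 1 ≤ n) (z : Cn n) : isc n (H19.sc n z) = z := by
  have h0 : (0 : ℝ) < n := by exact_mod_cast hn
  have hs : (0 : ℝ) < Real.sqrt n := Real.sqrt_pos.2 h0
  ext j
  change (Real.sqrt n : ℂ) * z j / (Real.sqrt n : ℂ) = z j
  have : (Real.sqrt n : ℂ) ≠ 0 := by exact_mod_cast hs.ne'
  field_simp

lemma isc_mem {n : ℕ} (hn : 1 ≤ n) {y : Fin n → ℂ} (hy : y ∈ Dn n) :
    isc n y ∈ ball (0 : Cn n) 1 := by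
  obtain ⟨z, hz, rfl⟩ := H19.exists_sc hn hy
  rwa [isc_sc hn]

lemma continuous_isc (n : ℕ) : Continuous (isc n) := by
  unfold isc
  fun_prop

/-- series on polydiscs inside `Dn` -/
lemma local_series {n : ℕ} (hn : 1 ≤ n) {g : Cn n → ℂ} (hg : g ∈ NB n) {s : Fin n → ℝ}
    (hs : ∀ j, 0 < s j) (hs1 : ∑ j, s j ^ 2 < (n : ℝ)) :
    ∃ a : (Fin n → ℕ) → ℂ, ∀ y ∈ PD s, HasSum (fun γ => a γ * mon γ y) (g (isc n y)) := by
  -- the closed polydisc
  have hK : IsCompact (Set.univ.pi fun j => closedBall (0 : ℂ) (s j)) :=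
    isCompact_univ_pi fun _ => isCompact_closedBall _ _
  have hKD : (Set.univ.pi fun j => closedBall (0 : ℂ) (s j)) ⊆ Dn n := by
    intro y hy
    refine lt_of_le_of_lt (Finset.sum_le_sum fun j _ => ?_) hs1
    exact pow_le_pow_left₀ (norm_nonneg _) (mem_closedBall_zero_iff.mp (hy j trivial)) 2
  have hcont : ContinuousOn (fun y => g (isc n y)) (Set.univ.pi fun j => closedBall (0 : ℂ) (s j)) :=
    hg.1.continuousOn.comp (continuous_isc n).continuousOn fun y hy => isc_mem hn (hKD hy)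
  obtain ⟨M, hM⟩ := hK.exists_bound_of_continuousOn hcont
  have hsub : ∀ y ∈ PD s, y ∈ Set.univ.pi fun j => closedBall (0 : ℂ) (s j) :=
    fun y hy j _ => mem_closedBall_zero_iff.mpr (hy j).le
  obtain ⟨a, -, ha⟩ := poly_series n s hs (fun y => g (isc n y)) M (fun y hy j => by
    have hup : ∀ t ∈ ball (0 : ℂ) (s j), Function.update y j t ∈ PD s := by
      intro t ht i
      rcases eq_or_ne i j with rfl | hij
      · rw [Function.update_self]
        exact mem_ball_zero_iff.mp ht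
      · rw [Function.update_of_ne hij]
        exact hy i
    refine hg.1.comp (t := ball (0 : Cn n) 1) ?_
      fun t ht => isc_mem hn (hKD (hsub _ (hup t ht)))
    refine Differentiable.differentiableOn ?_
    rw [differentiable_euclidean]
    intro i
    rcases eq_or_ne i j with rfl | hij
    · have : (fun t : ℂ => (isc n (Function.update y i t)).ofLp i) =
          fun t => t / (Real.sqrt n : ℂ) := by
        funext t
        change Function.update y i t i / (Real.sqrt n : ℂ) = _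
        rw [Function.update_self]
      rw [this]
      fun_prop
    · have : (fun t : ℂ => (isc n (Function.update y j t)).ofLp i) =
          fun t => y i / (Real.sqrt n : ℂ) := by
        funext t
        change Function.update y j t i / (Real.sqrt n : ℂ) = _
        rw [Function.update_of_ne hij]
      rw [this]
      fun_prop) (fun y hy => hM y (hsub y hy))
  exact ⟨a, ha⟩

end

end H21

/-- T0.1 -/
theorem exists_KB {n : ℕ} (hn : 1 ≤ n) {g : Cn n → ℂ} (hg : g ∈ NB n) :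
    ∃ a ∈ KB n, ∀ z ∈ ball (0 : Cn n) 1, g z = fn a (fun j => (Real.sqrt n : ℂ) * z j) := by
  obtain ⟨a, ha⟩ := local_series hn hg (s := fun _ => 1 / 2) (fun _ => by norm_num) (half_sum hn)
  have key : ∀ y ∈ Dn n, HasSum (fun γ => a γ * mon γ y) (g (isc n y)) := by
    intro y hy
    obtain ⟨s, hs, hs1, hys⟩ := exists_radii y hy
    obtain ⟨b, hb⟩ := local_series hn hg hs hs1
    have h1 := poly_unique n (fun j => min (s j) (1 / 2)) (fun j => lt_min (hs j) (by norm_num))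
      (fun γ => b γ - a γ) (fun y hy => by
        have h2 := (hb y (PD_mono (fun j => min_le_left _ _) hy)).sub
          (ha y (PD_mono (fun j => min_le_right _ _) hy))
        rw [sub_self] at h2
        simpa only [sub_mul] using h2)
    have h3 : b = a := funext fun γ => sub_eq_zero.mp (h1 γ)
    rw [← h3]
    exact hb y hys
  have h00 : (0 : Fin n → ℂ) ∈ Dn n := by
    have : (0 : ℝ) < n := by exact_mod_cast hn
    change ∑ j : Fin n, ‖(0 : ℂ)‖ ^ 2 < (n : ℝ)
    simpa using this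
  refine ⟨a, ⟨?_, fun y hy => ⟨(key y hy).summable, ?_⟩⟩, fun z hz => ?_⟩
  · have h1 := key 0 h00
    have h2 : isc n 0 = 0 := by
      ext j
      change (0 : ℂ) / _ = 0
      rw [zero_div]
    rw [h2, hg.2.2] at h1
    have h3 : HasSum (fun γ => a γ * mon γ (0 : Fin n → ℂ)) (a 0 * mon 0 (0 : Fin n → ℂ)) := by
      refine hasSum_single 0 fun γ hγ => ?_
      obtain ⟨j, hj⟩ : ∃ j, γ j ≠ 0 := by
        by_contra hcon
        push Not at hcon
        exact hγ (funext hcon)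
      rw [mon, Finset.prod_eq_zero (Finset.mem_univ j) (by rw [Pi.zero_apply, zero_pow hj]), mul_zero]
    have h4 := h3.unique h1
    simpa [mon] using h4
  · rw [fn, (key y hy).tsum_eq]
    exact (hg.2.1 _ (isc_mem hn hy)).le
  · have h1 := key (H19.sc n z) (H19.sc_mem hn hz)
    rw [isc_sc hn] at h1
    exact h1.tsum_eq.symm

end Pool.Agent.Lib.MP_6ff8d9_an
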