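import Pool.Agent.Lib.MP_6ff8d9_an_h19.BaireOf

/-! # T5: good polynomials are dense -/

open Metric Filter Topology

namespace Pool.Agent.Lib.MP_6ff8d9_an

namespace H21

noncomputable section

variable {n : ℕ}

/-- The value of a polynomial, as a linear map. -/
def ev (y : Fin n → ℂ) : ((Fin n → ℕ) →₀ ℂ) →ₗ[ℂ] ℂ := Finsupp.linearCombination ℂ fun γ => mon γ y

lemma ev_eq (y : Fin n → ℂ) (p : (Fin n → ℕ) →₀ ℂ) : (p.sum fun γ c => c * mon γ y) = ev y p := by
  rw [ev, Finsupp.linearCombination_apply]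
  rfl

lemma ev_single (y : Fin n → ℂ) (γ : Fin n → ℕ) (c : ℂ) :
    ev y (Finsupp.single γ c) = c * mon γ y := by
  rw [ev, Finsupp.linearCombination_single, smul_eq_mul]

lemma mon_zero (y : Fin n → ℂ) : mon 0 y = 1 := by
  simp [mon]

lemma mon_single (y : Fin n → ℂ) (i : Fin n) (N : ℕ) : mon (Pi.single i N) y = y i ^ N := by
  rw [mon, Finset.prod_eq_single i]
  · simp
  · intro j _ hj
    rw [Pi.single_eq_of_ne hj, pow_zero]
  · intro h
    exact absurd (Finset.mem_univ i) h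

lemma mon_smul (r : ℝ) (γ : Fin n → ℕ) (y : Fin n → ℂ) :
    mon γ (fun j => (r : ℂ) * y j) = (∏ j, (r : ℂ) ^ γ j) * mon γ y := by
  rw [mon, mon, ← Finset.prod_mul_distrib]
  refine Finset.prod_congr rfl fun j _ => ?_
  rw [mul_pow]

/-- Polynomials with real part at least a positive constant are in `KB`. -/
lemma mem_KB_of_finsupp (p : (Fin n → ℕ) →₀ ℂ) (h0 : p 0 = 1)
    (h : ∀ y ∈ Dn n, 0 ≤ (p.sum fun γ c => c * mon γ y).re) : ⇑p ∈ KB n := by
  refine ⟨h0, fun y hy => ?_⟩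
  have h1 : ∀ γ, γ ∉ p.support → p γ * mon γ y = 0 := fun γ hγ => by
    rw [Finsupp.notMem_support_iff.mp hγ, zero_mul]
  refine ⟨summable_of_ne_finset_zero h1, ?_⟩
  have h2 : fn (⇑p) y = p.sum fun γ c => c * mon γ y := by
    rw [fn, tsum_eq_sum h1]
    rfl
  rw [h2]
  exact h y hy

/-- The approximating polynomials. -/
lemma approx (hn : 1 ≤ n) (i : Fin n) (hp : H19.Pairing n) {a : (Fin n → ℕ) → ℂ} (ha : a ∈ KB n)
    {r : ℝ} (hr0 : 0 < r) (hr1 : r < 1) {η : ℝ} (hη : 0 < η) (k : ℕ) :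
    ∃ b ∈ Good n ∩ KB n, ∀ γ : Fin n → ℕ, (∀ j, γ j ≤ k) →
      b γ = (a γ * (∏ j, (r : ℂ) ^ γ j) + if γ = 0 then 2 * (η : ℂ) else 0) / (1 + 2 * (η : ℂ)) := by
  classical
  have hCB := H19.KB_subset_CB hp ha
  have hs := (H19.summable_geom n hr0.le hr1).mul_left 2
  -- the truncation
  obtain ⟨S₀, hS₀⟩ := summable_iff_vanishing_norm.mp hs η hη
  set S : Finset (Fin n → ℕ) := S₀ ∪ Fintype.piFinset fun _ => Finset.range (k + 1) with hS
  have hSk : ∀ γ : Fin n → ℕ, (∀ j, γ j ≤ k) → γ ∈ S := by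
    intro γ hγ
    rw [hS, Finset.mem_union, Fintype.mem_piFinset]
    exact Or.inr fun j => Finset.mem_range.mpr (Nat.lt_succ_of_le (hγ j))
  have h0S : (0 : Fin n → ℕ) ∈ S := hSk 0 fun j => Nat.zero_le _
  -- the new exponent
  obtain ⟨N, hN0, hNk, hN⟩ : ∃ N : ℕ, 0 < N ∧ k < N ∧ ∀ γ ∈ S, γ i < N :=
    ⟨(S.sup fun γ => γ i) + k + 1, by omega, by omega, fun γ hγ => by
      have : γ i ≤ S.sup fun γ => γ i := Finset.le_sup (f := fun γ : Fin n → ℕ => γ i) hγ
      omega⟩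
  have hn0 : (0 : ℝ) < n := by exact_mod_cast hn
  have hη1 : (0 : ℝ) < 1 + 2 * η := by positivity
  have hη1c : (1 + 2 * η : ℂ) ≠ 0 := by
    have : ((1 + 2 * η : ℝ) : ℂ) ≠ 0 := by exact_mod_cast hη1.ne'
    push_cast at this
    exact this
  set τ : ℝ := η / (2 * (1 + 2 * η) * (n : ℝ) ^ N) with hτ
  have hτ0 : 0 < τ := by positivity
  -- the polynomial
  set c : (Fin n → ℕ) → ℂ := fun γ =>
    (a γ * (∏ j, (r : ℂ) ^ γ j) + if γ = 0 then 2 * (η : ℂ) else 0) / (1 + 2 * (η : ℂ)) with hc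
  set p : (Fin n → ℕ) →₀ ℂ := (∑ γ ∈ S, Finsupp.single γ (c γ)) +
    Finsupp.single (Pi.single i N) (τ : ℂ) with hpdef
  have hsum : ∀ γ, (∑ γ' ∈ S, Finsupp.single γ' (c γ')) γ = if γ ∈ S then c γ else 0 := by
    intro γ
    rw [Finsupp.finsetSum_apply]
    simp only [Finsupp.single_apply]
    exact Finset.sum_ite_eq' S γ c
  have hNS : ∀ l : ℕ, (Pi.single i N + fun _ => l : Fin n → ℕ) ∉ S := by
    intro l hl
    have := hN _ hl
    simp only [Pi.add_apply, Pi.single_eq_same] at this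
    omega
  have hNS0 : (Pi.single i N : Fin n → ℕ) ∉ S := by
    intro hl
    have := hN _ hl
    rw [Pi.single_eq_same] at this
    omega
  have pS : ∀ γ ∈ S, p γ = c γ := by
    intro γ hγ
    have h1 : (Pi.single i N : Fin n → ℕ) ≠ γ := fun h => hNS0 (h ▸ hγ)
    rw [hpdef, Finsupp.add_apply, hsum, if_pos hγ, Finsupp.single_apply, if_neg h1, add_zero]
  have hp0 : p 0 = 1 := by
    rw [pS 0 h0S]
    simp only [hc, ha.1, Pi.zero_apply, pow_zero, Finset.prod_const_one, mul_one, if_true]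
    exact div_self hη1c
  have hpre : ∀ y ∈ Dn n, η / (2 * (1 + 2 * η)) ≤ (p.sum fun γ c => c * mon γ y).re := by
    intro y hy
    have hyi : ‖y i‖ ≤ n := by
      have h1 : ‖y i‖ ^ 2 ≤ ∑ j, ‖y j‖ ^ 2 :=
        Finset.single_le_sum (f := fun j => ‖y j‖ ^ 2) (fun j _ => by positivity)
          (Finset.mem_univ i)
      have h2 : ‖y i‖ ^ 2 < n := lt_of_le_of_lt h1 hy
      have h3 : (1 : ℝ) ≤ n := by exact_mod_cast hn
      have h4 : ‖y i‖ ^ 2 ≤ (n : ℝ) ^ 2 := by nlinarith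
      exact le_of_sq_le_sq h4 hn0.le
    have hry : (fun j => (r : ℂ) * y j) ∈ Dn n := by
      change ∑ j, ‖(r : ℂ) * y j‖ ^ 2 < (n : ℝ)
      refine lt_of_le_of_lt (Finset.sum_le_sum fun j _ => ?_) hy
      rw [norm_mul, Complex.norm_real, Real.norm_eq_abs, abs_of_pos hr0]
      exact pow_le_pow_left₀ (by positivity) (mul_le_of_le_one_left (norm_nonneg _) hr1.le) 2
    have hry' : ∑ j, (‖(r : ℂ) * y j‖ / r) ^ 2 < (n : ℝ) := by
      have h1 : ∀ j, ‖(r : ℂ) * y j‖ / r = ‖y j‖ := by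
        intro j
        rw [norm_mul, Complex.norm_real, Real.norm_eq_abs, abs_of_pos hr0, mul_comm,
          mul_div_assoc, div_self hr0.ne', mul_one]
      simp only [h1]
      exact hy
    have hdom := fun γ => H19.dom hCB (y := fun j => (r : ℂ) * y j) hr0 hry' γ
    have hsu := (ha.2 _ hry).1
    have hre := (ha.2 _ hry).2
    -- the tail
    have htail : ‖fn a (fun j => (r : ℂ) * y j) -
        ∑ γ ∈ S, a γ * mon γ (fun j => (r : ℂ) * y j)‖ ≤ η := by
      have h1 : Tendsto (fun U : Finset (Fin n → ℕ) =>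
          ‖(∑ γ ∈ U, a γ * mon γ (fun j => (r : ℂ) * y j)) -
            ∑ γ ∈ S, a γ * mon γ (fun j => (r : ℂ) * y j)‖) atTop
          (𝓝 ‖fn a (fun j => (r : ℂ) * y j) -
            ∑ γ ∈ S, a γ * mon γ (fun j => (r : ℂ) * y j)‖) :=
        (hsu.hasSum.sub_const _).norm
      refine le_of_tendsto h1 ?_
      filter_upwards [eventually_ge_atTop S] with U hU
      rw [← Finset.sum_sdiff hU, add_sub_cancel_right]
      refine (norm_sum_le _ _).trans ((Finset.sum_le_sum fun γ _ => hdom γ).trans ?_)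
      have h2 := hS₀ (U \ S) (by
        rw [Finset.disjoint_left]
        intro γ h3 h4
        rw [Finset.mem_sdiff] at h3
        exact h3.2 (Finset.mem_union_left _ h4))
      rw [Real.norm_eq_abs] at h2
      exact (le_abs_self _).trans h2.le
    -- the value
    have hval : (p.sum fun γ c => c * mon γ y) =
        ((∑ γ ∈ S, a γ * mon γ (fun j => (r : ℂ) * y j)) + 2 * η) / (1 + 2 * η) +
          τ * y i ^ N := by
      rw [ev_eq, hpdef, map_add, map_sum, ev_single, mon_single]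
      congr 1
      simp only [ev_single, mon_smul]
      have h1 : ∀ γ ∈ S, c γ * mon γ y = (a γ * ((∏ j, (r : ℂ) ^ γ j) * mon γ y) +
          if γ = 0 then 2 * (η : ℂ) else 0) / (1 + 2 * η) := by
        intro γ _
        by_cases h : γ = 0
        · subst h
          simp only [hc, mon_zero, if_true, mul_one]
        · simp only [hc, if_neg h, add_zero]
          ring
      rw [Finset.sum_congr rfl h1, ← Finset.sum_div, Finset.sum_add_distrib,
        Finset.sum_ite_eq' S (0 : Fin n → ℕ), if_pos h0S]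
    rw [hval]
    have h1 : (((∑ γ ∈ S, a γ * mon γ (fun j => (r : ℂ) * y j)) + 2 * η) / (1 + 2 * η) : ℂ).re =
        ((∑ γ ∈ S, a γ * mon γ (fun j => (r : ℂ) * y j)).re + 2 * η) / (1 + 2 * η) := by
      have : (1 + 2 * η : ℂ) = ((1 + 2 * η : ℝ) : ℂ) := by push_cast; ring
      rw [this, Complex.div_ofReal_re, Complex.add_re]
      congr 2
      simp
    have h2 : -η ≤ (∑ γ ∈ S, a γ * mon γ (fun j => (r : ℂ) * y j)).re := by
      have h3 := (Complex.abs_re_le_norm _).trans htail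
      rw [Complex.sub_re] at h3
      have h4 := (abs_le.mp h3).2
      linarith
    have h5 : |(τ * y i ^ N : ℂ).re| ≤ η / (2 * (1 + 2 * η)) := by
      refine (Complex.abs_re_le_norm _).trans ?_
      rw [norm_mul, Complex.norm_real, Real.norm_eq_abs, abs_of_pos hτ0, norm_pow]
      have h6 : ‖y i‖ ^ N ≤ (n : ℝ) ^ N := pow_le_pow_left₀ (norm_nonneg _) hyi N
      have h7 : τ * (n : ℝ) ^ N = η / (2 * (1 + 2 * η)) := by
        rw [hτ]
        field_simp
      rw [← h7]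
      exact mul_le_mul_of_nonneg_left h6 hτ0.le
    have h8 := (abs_le.mp h5).1
    rw [Complex.add_re, h1]
    have h9 : η / (1 + 2 * η) ≤
        ((∑ γ ∈ S, a γ * mon γ (fun j => (r : ℂ) * y j)).re + 2 * η) / (1 + 2 * η) :=
      div_le_div_of_nonneg_right (by linarith) hη1.le
    have h10 : η / (1 + 2 * η) = 2 * (η / (2 * (1 + 2 * η))) := by
      field_simp
    linarith
  have hδ : 0 < η / (2 * (1 + 2 * η)) := by positivity
  refine ⟨⇑p, ⟨⟨p, rfl, hp0, ⟨_, hδ, hpre⟩, i, N, hN0, ?_, ?_⟩,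
    mem_KB_of_finsupp p hp0 fun y hy => hδ.le.trans (hpre y hy)⟩, fun γ hγ => pS γ (hSk γ hγ)⟩
  · rw [hpdef, Finsupp.add_apply, hsum, if_neg hNS0, Finsupp.single_eq_same, zero_add]
    exact_mod_cast hτ0.ne'
  · intro l hl
    have h1 : (Pi.single i N : Fin n → ℕ) ≠ Pi.single i N + fun _ => l := by
      intro h
      have := congrFun h i
      simp only [Pi.add_apply, Pi.single_eq_same] at this
      omega
    rw [hpdef, Finsupp.add_apply, hsum, if_neg (hNS l), Finsupp.single_apply, if_neg h1, add_zero]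

/-- T5, from the pairing inequality. -/
theorem KB_subset_closure_Good_of (hn : 1 ≤ n) (hp : H19.Pairing n) :
    KB n ⊆ closure (Good n ∩ KB n) := by
  intro a ha
  have i : Fin n := ⟨0, hn⟩
  have hr0 : ∀ k : ℕ, (0 : ℝ) < 1 - 1 / ((k : ℝ) + 2) := by
    intro k
    have : (1 : ℝ) / ((k : ℝ) + 2) < 1 := by
      rw [div_lt_one (by positivity)]
      have : (0 : ℝ) ≤ k := Nat.cast_nonneg k
      linarith
    linarith
  have hr1 : ∀ k : ℕ, 1 - 1 / ((k : ℝ) + 2) < 1 := by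
    intro k
    have : (0 : ℝ) < 1 / ((k : ℝ) + 2) := by positivity
    linarith
  have hη : ∀ k : ℕ, (0 : ℝ) < 1 / ((k : ℝ) + 1) := fun k => by positivity
  choose b hb hb' using fun k : ℕ => approx hn i hp ha (hr0 k) (hr1 k) (hη k) k
  refine mem_closure_of_tendsto (f := b) (b := atTop) ?_ (Eventually.of_forall hb)
  rw [tendsto_pi_nhds]
  intro γ
  have t1 : Tendsto (fun k : ℕ => 1 / ((k : ℝ) + 1)) atTop (𝓝 0) :=
    tendsto_one_div_add_atTop_nhds_zero_nat
  have t2 : Tendsto (fun k : ℕ => 1 - 1 / ((k : ℝ) + 2)) atTop (𝓝 1) := by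
    have t3 := (tendsto_add_atTop_iff_nat 1).mpr t1
    have t4 := (tendsto_const_nhds (x := (1 : ℝ))).sub t3
    rw [sub_zero] at t4
    refine t4.congr fun k => ?_
    push_cast
    ring_nf
  have c1 : Tendsto (fun k : ℕ => ((1 / ((k : ℝ) + 1) : ℝ) : ℂ)) atTop (𝓝 0) := by
    have := (Complex.continuous_ofReal.tendsto 0).comp t1
    rwa [Complex.ofReal_zero] at this
  have c2 : Tendsto (fun k : ℕ => ((1 - 1 / ((k : ℝ) + 2) : ℝ) : ℂ)) atTop (𝓝 1) := by
    have := (Complex.continuous_ofReal.tendsto 1).comp t2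
    rwa [Complex.ofReal_one] at this
  have c3 : Tendsto (fun k : ℕ => (a γ * (∏ j, ((1 - 1 / ((k : ℝ) + 2) : ℝ) : ℂ) ^ γ j) +
      if γ = 0 then 2 * ((1 / ((k : ℝ) + 1) : ℝ) : ℂ) else 0) /
        (1 + 2 * ((1 / ((k : ℝ) + 1) : ℝ) : ℂ))) atTop
      (𝓝 ((a γ * (∏ j, (1 : ℂ) ^ γ j) + if γ = 0 then 2 * (0 : ℂ) else 0) /
        (1 + 2 * (0 : ℂ)))) := by
    refine Tendsto.div (Tendsto.add (tendsto_const_nhds.mul
      (tendsto_finsetProd _ fun j _ => c2.pow _)) ?_) (tendsto_const_nhds.add (c1.const_mul 2))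
      (by norm_num)
    by_cases h : γ = 0
    · simp only [if_pos h]
      exact c1.const_mul 2
    · simp only [if_neg h]
      exact tendsto_const_nhds
  have e1 : (a γ * (∏ j, (1 : ℂ) ^ γ j) + if γ = 0 then 2 * (0 : ℂ) else 0) /
        (1 + 2 * (0 : ℂ)) = a γ := by
    simp
  rw [e1] at c3
  refine c3.congr' ?_
  obtain ⟨M, hM⟩ : ∃ M : ℕ, ∀ j, γ j ≤ M :=
    ⟨Finset.univ.sup γ, fun j => Finset.le_sup (Finset.mem_univ j)⟩
  filter_upwards [eventually_ge_atTop M] with k hk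
  exact (hb' k γ fun j => (hM j).trans hk).symm

end

end H21

end Pool.Agent.Lib.MP_6ff8d9_an
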